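import Pool.Agent.H471R4.SP.Stubs

set_option autoImplicit false

/-! Project SP, task DIF. -/

namespace Pool.Agent.H471R4.SP

theorem dif_four {x r : ℤ} (h : 4 * x = r * r) : ∃ s : ℤ, x = s * s := by
  have h1 : Even (r * r) := ⟨2 * x, by linarith⟩
  have h2 : Even r := by
    rcases Int.even_mul.1 h1 with h | h <;> exact h
  obtain ⟨s, rfl⟩ := h2
  exact ⟨s, by linarith [show (s + s) * (s + s) = 4 * (s * s) by ring]⟩

theorem dif_sqf {e e' c : ℤ} (he : Squarefree e) (he' : Squarefree e') (h : e * e' = c * c) :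
    e = e' := by
  have he0 : e ≠ 0 := he.ne_zero
  have h1 : e ∣ c := by
    have h2 : e ∣ c ^ 2 := ⟨e', by rw [h]; ring⟩
    exact (he.dvd_pow_iff_dvd two_ne_zero).1 h2
  obtain ⟨k, rfl⟩ := h1
  have h3 : e' = e * (k * k) := by
    apply mul_left_cancel₀ he0
    rw [h]
    ring
  have h4 : IsUnit k := he' k ⟨e, by rw [h3]; ring⟩
  rcases Int.isUnit_iff.1 h4 with h5 | h5
  · rw [h3, h5]
    ring
  · rw [h3, h5]
    ring

theorem dif_fund {d : ℤ} (hd : Fund d) : ∃ e : ℤ, Squarefree e ∧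
    ((d = e ∧ e % 4 = 1) ∨ (d = 4 * e ∧ (e % 4 = 2 ∨ e % 4 = 3))) := by
  obtain ⟨_, h | ⟨m, h1, h2, h3⟩⟩ := hd
  · exact ⟨d, h.2, Or.inl ⟨rfl, h.1⟩⟩
  · exact ⟨m, h3, Or.inr ⟨h1, h2⟩⟩

theorem dif : DIF := by
  intro d d' hd hd' hne hsq
  obtain ⟨r, hr⟩ := hsq
  obtain ⟨e, he, h1⟩ := dif_fund hd
  obtain ⟨e', he', h2⟩ := dif_fund hd'
  rcases h1 with ⟨h1, h1'⟩ | ⟨h1, h1'⟩
  · rcases h2 with ⟨h2, h2'⟩ | ⟨h2, h2'⟩
    · have h3 : e * e' = r * r := by rw [← h1, ← h2]; exact hr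
      have h4 := dif_sqf he he' h3
      exact hne (by rw [h1, h2, h4])
    · have h3 : 4 * (e * e') = r * r := by rw [← hr, h1, h2]; ring
      obtain ⟨s, hs⟩ := dif_four h3
      have h4 := dif_sqf he he' hs
      subst h4
      omega
  · rcases h2 with ⟨h2, h2'⟩ | ⟨h2, h2'⟩
    · have h3 : 4 * (e * e') = r * r := by rw [← hr, h1, h2]; ring
      obtain ⟨s, hs⟩ := dif_four h3
      have h4 := dif_sqf he he' hs
      subst h4
      omega
    · have h3 : 4 * (4 * (e * e')) = r * r := by rw [← hr, h1, h2]; ring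
      obtain ⟨s, hs⟩ := dif_four h3
      obtain ⟨s', hs'⟩ := dif_four hs
      have h4 := dif_sqf he he' hs'
      exact hne (by rw [h1, h2, h4])

end Pool.Agent.H471R4.SP
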