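import Pool.Agent.H471R4.SP.Stubs
import Pool.Agent.Helper919.Char

set_option autoImplicit false

namespace Pool.Agent.H471R4.SP

open Finset

theorem per : PER := by
  intro m hsq D
  have hm : m ≠ 0 := by
    rintro rfl
    exact hsq ⟨0, by norm_num⟩
  have h1 := Pool.Agent.Helper919.XX_sum_bound m hm hsq D
  have h3 : Icc 1 D = Ioc 0 D := by
    ext x
    simp only [Finset.mem_Icc, Finset.mem_Ioc]
    omega
  have h2 : ((∑ s ∈ (Icc 1 D).filter (fun s => Odd s), jacobiSym m s : ℤ) : ℝ)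
      = ∑ d ∈ Ioc 0 D, Pool.Agent.Helper919.XX m d := by
    rw [Finset.sum_filter, h3, Int.cast_sum]
    refine Finset.sum_congr rfl fun d _ => ?_
    rw [Pool.Agent.Helper919.XX_apply]
    split_ifs <;> simp
  rw [h2]
  refine h1.trans ?_
  have h4 : ((m.natAbs : ℕ) : ℝ) = |(m : ℝ)| := by
    rw [Nat.cast_natAbs, Int.cast_abs]
  rw [h4]

end Pool.Agent.H471R4.SP
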