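import Pool.Agent.H471R4.SP.Stubs
import Pool.Agent.H471R4.BW.SMO
import Pool.Agent.H379R2.W.Smooth

set_option autoImplicit false

/-! Project SP, task RSM: integers without small and without large prime factors. -/

namespace Pool.Agent.H471R4.SP

open Finset

namespace RSMaux

theorem many_primes (κ : ℝ) (hκ : 0 < κ) : ∃ L0 : ℝ, ∀ D : ℕ, 2 ≤ D → L0 ≤ Real.log D →
    ∀ z : ℕ, z ≤ D → (D : ℝ) ^ (κ / 2) / 2 ≤ z →
    (z : ℝ) / (4 * Real.log D) ≤
      (((Icc 1 z).filter (fun m : ℕ => m.Prime ∧ (D : ℝ) ^ (κ / 4) < m)).card : ℝ) := by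
  have hev := (isLittleO_log_rpow_atTop (show 0 < κ / 4 by positivity)).def
    (by norm_num : (0 : ℝ) < 1 / 8)
  obtain ⟨Y, hY⟩ := Filter.eventually_atTop.mp hev
  have hl2 : 0 < Real.log 2 := Real.log_pos (by norm_num)
  refine ⟨max (Real.log (max Y 1)) (2 * Real.log 40 / κ), fun D hD2 hL z hzD hz => ?_⟩
  have hD0 : (0 : ℝ) < D := by exact_mod_cast (by omega : 0 < D)
  have hD1 : (1 : ℝ) < D := by exact_mod_cast (by omega : 1 < D)
  have hlogD : 0 < Real.log D := Real.log_pos hD1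
  have hYD : Y ≤ D := by
    have h1 : Real.log (max Y 1) ≤ Real.log D := (le_max_left _ _).trans hL
    have h2 : max Y 1 ≤ (D : ℝ) := (Real.log_le_log_iff (by positivity) hD0).mp h1
    exact (le_max_left _ _).trans h2
  have h3 := hY D hYD
  rw [Real.norm_of_nonneg hlogD.le, Real.norm_of_nonneg (by positivity)] at h3
  have h40 : (40 : ℝ) ≤ (D : ℝ) ^ (κ / 2) := by
    have h4 : 2 * Real.log 40 / κ ≤ Real.log D := (le_max_right _ _).trans hL
    rw [div_le_iff₀ hκ] at h4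
    rw [← Real.log_le_log_iff (by norm_num) (by positivity), Real.log_rpow hD0]
    linarith
  have hz20 : (20 : ℝ) ≤ z := by linarith
  have hz0 : (0 : ℝ) < z := by linarith
  have hcheb := Pool.Agent.H379R2.W.primeCounting_low (y := z)
  have hlz1 : Real.log (z + 1) ≤ (z + 1) / 8 + 3 * Real.log 2 - 1 := by
    have h5 := Real.log_le_sub_one_of_pos (show (0 : ℝ) < (z + 1) / 8 by positivity)
    rw [Real.log_div (by positivity) (by norm_num)] at h5
    have h6 : Real.log 8 = 3 * Real.log 2 := by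
      rw [show (8 : ℝ) = 2 ^ 3 by norm_num, Real.log_pow]; norm_num
    rw [h6] at h5
    linarith
  have hl2a := Real.log_two_gt_d9
  have hl2b := Real.log_two_lt_d9
  have hhalf : (z : ℝ) / 2 ≤ Nat.primeCounting z * Real.log z := by
    nlinarith
  have hlogz : Real.log z ≤ Real.log D := Real.log_le_log hz0 (by exact_mod_cast hzD)
  have hlogz0 : 0 < Real.log z := Real.log_pos (by linarith)
  have hpi : (z : ℝ) / (2 * Real.log D) ≤ Nat.primeCounting z := by
    rw [div_le_iff₀ (by positivity)]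
    have : (Nat.primeCounting z : ℝ) * Real.log z ≤ Nat.primeCounting z * Real.log D :=
      mul_le_mul_of_nonneg_left hlogz (Nat.cast_nonneg _)
    linarith
  have hsub : (range (z + 1)).filter Nat.Prime ⊆
      (Icc 1 z).filter (fun m : ℕ => m.Prime ∧ (D : ℝ) ^ (κ / 4) < m) ∪
        Icc 1 ⌊(D : ℝ) ^ (κ / 4)⌋₊ := by
    intro m hm
    rw [mem_filter, mem_range] at hm
    rw [mem_union, mem_filter, mem_Icc, mem_Icc]
    by_cases h : (D : ℝ) ^ (κ / 4) < m
    · left; exact ⟨⟨hm.2.one_lt.le, by omega⟩, hm.2, h⟩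
    · right
      push Not at h
      exact ⟨hm.2.one_lt.le, Nat.le_floor h⟩
  have hcard := (card_le_card hsub).trans (card_union_le _ _)
  rw [Nat.card_Icc, Nat.add_sub_cancel] at hcard
  have hpc : ((range (z + 1)).filter Nat.Prime).card = Nat.primeCounting z := by
    rw [Nat.primeCounting, Nat.primeCounting', Nat.count_eq_card_filter_range]
  rw [hpc] at hcard
  have hcard' : (Nat.primeCounting z : ℝ) ≤
      (((Icc 1 z).filter (fun m : ℕ => m.Prime ∧ (D : ℝ) ^ (κ / 4) < m)).card : ℝ) +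
        (D : ℝ) ^ (κ / 4) := by
    have h7 : (Nat.primeCounting z : ℝ) ≤
      (((Icc 1 z).filter (fun m : ℕ => m.Prime ∧ (D : ℝ) ^ (κ / 4) < m)).card : ℝ) +
        (⌊(D : ℝ) ^ (κ / 4)⌋₊ : ℝ) := by exact_mod_cast hcard
    exact h7.trans (by gcongr; exact Nat.floor_le (by positivity))
  have hsmall : (D : ℝ) ^ (κ / 4) ≤ (z : ℝ) / (4 * Real.log D) := by
    rw [le_div_iff₀ (by positivity)]
    have h8 : (D : ℝ) ^ (κ / 2) = (D : ℝ) ^ (κ / 4) * (D : ℝ) ^ (κ / 4) := by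
      rw [← Real.rpow_add hD0]; congr 1; ring
    have h9 : 0 < (D : ℝ) ^ (κ / 4) := by positivity
    rw [h8] at hz
    nlinarith
  have h10 : (z : ℝ) / (2 * Real.log D) = (z : ℝ) / (4 * Real.log D) + (z : ℝ) / (4 * Real.log D) := by
    field_simp
    norm_num
  linarith

end RSMaux

open RSMaux

open Pool.Agent.H471R4.BW.SMOaux

theorem rsm : RSM := by
  classical
  intro κ hκ0 hκ1
  set k : ℝ := min κ (1 / 2) with hk
  have hk0 : 0 < k := lt_min hκ0 (by norm_num)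
  have hkκ : k ≤ κ := min_le_left _ _
  have hk2 : k ≤ 1 / 2 := min_le_right _ _
  set t : ℕ := ⌈1 / k⌉₊ with ht
  have htk : 1 / k ≤ t := Nat.le_ceil _
  have ht0 : (0 : ℝ) < t := lt_of_lt_of_le (by positivity) htk
  set α : ℝ := (1 - k) / t with hα
  set β : ℝ := (1 - k / 2) / t with hβ
  have hα0 : 0 < α := div_pos (by linarith) ht0
  have hαβ : α < β := by
    rw [hα, hβ]
    gcongr
    linarith
  have hβk : β ≤ k := by
    rw [hβ, div_le_iff₀ ht0]
    rw [div_le_iff₀ hk0] at htk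
    nlinarith
  have hαt : α * t = 1 - k := by rw [hα]; field_simp
  have hβt : β * t = 1 - k / 2 := by rw [hβ]; field_simp
  obtain ⟨δ, hδ, L0', hsum⟩ := prime_sum α β hα0 hαβ
  obtain ⟨L1, hmany⟩ := many_primes k hk0
  set L0 : ℝ := max L0' L1 with hL0def
  have hkκ' : k = κ := by rw [hk]; exact min_eq_left hκ1
  have hαk : k / 4 < α := by
    have htlt : (t : ℝ) < 1 / k + 1 := Nat.ceil_lt_add_one (by positivity)
    rw [hα, lt_div_iff₀ ht0]
    have h1 : k / 4 * t < k / 4 * (1 / k + 1) := mul_lt_mul_of_pos_left htlt (by positivity)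
    have h2 : k / 4 * (1 / k + 1) = 1 / 4 + k / 4 := by field_simp
    linarith
  set w : ℕ := ⌈1 / α⌉₊ with hw
  have hw0 : (0 : ℝ) < w := lt_of_lt_of_le (by positivity) (Nat.le_ceil (1 / α))
  have hl2 : 0 < Real.log 2 := Real.log_pos (by norm_num)
  refine ⟨δ ^ t / (8 * (w : ℝ) ^ t), by positivity,
    ⌈Real.exp (max L0 (2 * Real.log 2 / k))⌉₊ + 2, ?_⟩
  intro D hD
  have hD2 : 2 ≤ D := by omega
  have hD0 : (0 : ℝ) < D := by exact_mod_cast (by omega : 0 < D)
  have hD1 : (1 : ℝ) < D := by exact_mod_cast (by omega : 1 < D)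
  have hDexp : Real.exp (max L0 (2 * Real.log 2 / k)) ≤ D := by
    refine (Nat.le_ceil _).trans ?_
    exact_mod_cast (by omega : ⌈Real.exp (max L0 (2 * Real.log 2 / k))⌉₊ ≤ D)
  have hlogD : max L0 (2 * Real.log 2 / k) ≤ Real.log D := by
    rw [Real.le_log_iff_exp_le hD0]; exact hDexp
  have hL0 : L0 ≤ Real.log D := (le_max_left _ _).trans hlogD
  have hLk : 2 * Real.log 2 ≤ Real.log D * k := by
    have := (le_max_right _ _).trans hlogD
    rwa [div_le_iff₀ hk0] at this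
  have hs := hsum D (by omega) ((le_max_left _ _).trans hL0)
  have hm1 := hmany D hD2 ((le_max_right _ _).trans hL0)
  have hlogD0 : 0 < Real.log D := Real.log_pos hD1
  set a := ⌊(D : ℝ) ^ α⌋₊ with ha
  set b := ⌊(D : ℝ) ^ β⌋₊ with hb
  set A : Finset ℕ := (Ioc a b).filter Nat.Prime with hA
  have hAp : ∀ p ∈ A, p.Prime ∧ (D : ℝ) ^ α ≤ p ∧ (p : ℝ) ≤ (D : ℝ) ^ β := by
    intro p hp
    rw [hA, mem_filter, mem_Ioc] at hp
    refine ⟨hp.2, ?_, ?_⟩
    · have h1 := Nat.lt_floor_add_one ((D : ℝ) ^ α)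
      rw [← ha] at h1
      have h2 : ((a : ℝ) + 1) ≤ p := by exact_mod_cast hp.1.1
      linarith
    · have h1 : (b : ℝ) ≤ (D : ℝ) ^ β := Nat.floor_le (Real.rpow_nonneg hD0.le _)
      have h2 : (p : ℝ) ≤ b := by exact_mod_cast hp.1.2
      linarith
  -- products
  set T : Finset (Fin t → ℕ) := Fintype.piFinset (fun _ : Fin t => A) with hT
  have hTmem : ∀ f ∈ T, ∀ i, f i ∈ A := fun f hf i => by
    rw [hT, Fintype.mem_piFinset] at hf
    exact hf i
  have hPpos : ∀ f ∈ T, 0 < ∏ i, f i := fun f hf =>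
    Finset.prod_pos fun i _ => (hAp _ (hTmem f hf i)).1.pos
  have hPlow : ∀ f ∈ T, (D : ℝ) ^ (1 - k) ≤ ((∏ i, f i : ℕ) : ℝ) := by
    intro f hf
    rw [← hαt, Real.rpow_mul hD0.le, Real.rpow_natCast]
    push_cast
    calc ((D : ℝ) ^ α) ^ t = ∏ _i : Fin t, (D : ℝ) ^ α := by
          rw [Finset.prod_const, Finset.card_univ, Fintype.card_fin]
      _ ≤ ∏ i, (f i : ℝ) := Finset.prod_le_prod (fun i _ => Real.rpow_nonneg hD0.le _)
          (fun i _ => (hAp _ (hTmem f hf i)).2.1)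
  have hPup : ∀ f ∈ T, ((∏ i, f i : ℕ) : ℝ) ≤ (D : ℝ) ^ (1 - k / 2) := by
    intro f hf
    rw [← hβt, Real.rpow_mul hD0.le, Real.rpow_natCast]
    push_cast
    calc ∏ i, (f i : ℝ) ≤ ∏ _i : Fin t, (D : ℝ) ^ β :=
          Finset.prod_le_prod (fun i _ => Nat.cast_nonneg _)
          (fun i _ => (hAp _ (hTmem f hf i)).2.2)
      _ = ((D : ℝ) ^ β) ^ t := by
          rw [Finset.prod_const, Finset.card_univ, Fintype.card_fin]
  -- the quotient is large
  have hquot : ∀ f ∈ T, (D : ℝ) / 2 * (1 / ((∏ i, f i : ℕ) : ℝ)) ≤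
      (((D - 1) / ∏ i, f i : ℕ) : ℝ) := by
    intro f hf
    set P := ∏ i, f i with hP
    have hP0 : (0 : ℝ) < P := by exact_mod_cast hPpos f hf
    have h1 : D - 1 < P * ((D - 1) / P + 1) := Nat.lt_mul_div_succ _ (hPpos f hf)
    have h2 : D ≤ P * ((D - 1) / P + 1) := by omega
    have h3 : (D : ℝ) ≤ P * (((D - 1) / P : ℕ) + 1) := by exact_mod_cast h2
    have h4 : 2 * (P : ℝ) ≤ D := by
      have h5 : (2 : ℝ) ≤ (D : ℝ) ^ (k / 2) := by
        rw [← Real.log_le_log_iff (by norm_num) (Real.rpow_pos_of_pos hD0 _), Real.log_rpow hD0]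
        linarith
      calc 2 * (P : ℝ) ≤ (D : ℝ) ^ (k / 2) * (D : ℝ) ^ (1 - k / 2) :=
            mul_le_mul h5 (hPup f hf) hP0.le (Real.rpow_nonneg hD0.le _)
        _ = D := by
            rw [← Real.rpow_add hD0]
            have : k / 2 + (1 - k / 2) = 1 := by ring
            rw [this, Real.rpow_one]
    rw [div_mul_div_comm, mul_one, div_le_iff₀ (by positivity)]
    nlinarith
  -- tuples
  have hquot2 : ∀ f ∈ T, (D : ℝ) / (8 * Real.log D) * (1 / ((∏ i, f i : ℕ) : ℝ)) ≤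
      (((Icc 1 ((D - 1) / ∏ i, f i)).filter
        (fun m : ℕ => m.Prime ∧ (D : ℝ) ^ (k / 4) < m)).card : ℝ) := by
    intro f hf
    have h1 := hquot f hf
    have hP0 : (0 : ℝ) < ((∏ i, f i : ℕ) : ℝ) := by exact_mod_cast hPpos f hf
    have h2 : (D : ℝ) ^ (k / 2) / 2 ≤ (((D - 1) / ∏ i, f i : ℕ) : ℝ) := by
      refine le_trans ?_ h1
      have h3 : (D : ℝ) ^ (k / 2) * ((∏ i, f i : ℕ) : ℝ) ≤ D := by
        calc (D : ℝ) ^ (k / 2) * ((∏ i, f i : ℕ) : ℝ) ≤ (D : ℝ) ^ (k / 2) * (D : ℝ) ^ (1 - k / 2) :=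
              mul_le_mul_of_nonneg_left (hPup f hf) (Real.rpow_nonneg hD0.le _)
          _ = D := by
              rw [← Real.rpow_add hD0]
              have : k / 2 + (1 - k / 2) = 1 := by ring
              rw [this, Real.rpow_one]
      rw [div_mul_div_comm, mul_one, div_le_div_iff₀ (by norm_num) (by positivity)]
      nlinarith
    have h4 := hm1 ((D - 1) / ∏ i, f i) ((Nat.div_le_self _ _).trans (Nat.sub_le _ _)) h2
    refine le_trans ?_ h4
    have h5 : (D : ℝ) / (8 * Real.log D) * (1 / ((∏ i, f i : ℕ) : ℝ)) =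
        ((D : ℝ) / 2 * (1 / ((∏ i, f i : ℕ) : ℝ))) / (4 * Real.log D) := by
      field_simp
      norm_num
    rw [h5]
    exact div_le_div_of_nonneg_right h1 (by positivity)
  set Tup : Finset (Σ _ : Fin t → ℕ, ℕ) := T.sigma (fun f => (Icc 1 ((D - 1) / ∏ i, f i)).filter
    (fun m : ℕ => m.Prime ∧ (D : ℝ) ^ (k / 4) < m)) with hTup
  have hTupcard : (Tup.card : ℝ) = ∑ f ∈ T, (((Icc 1 ((D - 1) / ∏ i, f i)).filter
      (fun m : ℕ => m.Prime ∧ (D : ℝ) ^ (k / 4) < m)).card : ℝ) := by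
    rw [hTup, Finset.card_sigma]
    push_cast
    rfl
  have hTuplow : (D : ℝ) / (8 * Real.log D) * δ ^ t ≤ Tup.card := by
    rw [hTupcard]
    calc (D : ℝ) / (8 * Real.log D) * δ ^ t ≤
          (D : ℝ) / (8 * Real.log D) * (∑ p ∈ A, (1 : ℝ) / p) ^ t := by gcongr
      _ = (D : ℝ) / (8 * Real.log D) * ∑ f ∈ T, ∏ i, (1 : ℝ) / (f i) := by
          congr 1
          have := Finset.prod_univ_sum (fun _ : Fin t => A) (fun _ p => (1 : ℝ) / (p : ℝ))
          rw [Finset.prod_const, Finset.card_univ, Fintype.card_fin] at this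
          exact this
      _ = ∑ f ∈ T, (D : ℝ) / (8 * Real.log D) * (1 / ((∏ i, f i : ℕ) : ℝ)) := by
          rw [Finset.mul_sum]
          refine Finset.sum_congr rfl fun f _ => ?_
          rw [Finset.prod_div_distrib, Finset.prod_const_one]
          push_cast
          rfl
      _ ≤ _ := Finset.sum_le_sum fun f hf => hquot2 f hf
  let φ : (Σ _ : Fin t → ℕ, ℕ) → ℕ := fun x => (∏ i, x.1 i) * x.2
  have hmemTup : ∀ x ∈ Tup, x.1 ∈ T ∧ 1 ≤ x.2 ∧ x.2 ≤ (D - 1) / ∏ i, x.1 i := by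
    intro x hx
    rw [hTup, Finset.mem_sigma, mem_filter, mem_Icc] at hx
    exact ⟨hx.1, hx.2.1.1, hx.2.1.2⟩
  have hmemTup2 : ∀ x ∈ Tup, x.2.Prime ∧ (D : ℝ) ^ (k / 4) < x.2 := by
    intro x hx
    rw [hTup, Finset.mem_sigma, mem_filter, mem_Icc] at hx
    exact hx.2.2
  have hφ : ∀ x ∈ Tup, 1 ≤ φ x ∧ φ x < D := by
    intro x hx
    obtain ⟨h1, h2, h3⟩ := hmemTup x hx
    have h4 := hPpos x.1 h1
    refine ⟨Nat.mul_pos h4 h2, ?_⟩
    have h5 : (∏ i, x.1 i) * x.2 ≤ D - 1 := (Nat.mul_le_mul_left _ h3).trans (Nat.mul_div_le _ _)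
    show (∏ i, x.1 i) * x.2 < D
    omega
  -- fibres
  have hfib : ∀ s ∈ Tup.image φ, (Tup.filter fun x => φ x = s).card ≤ w ^ t := by
    intro s hs'
    obtain ⟨x₀, hx₀, rfl⟩ := Finset.mem_image.1 hs'
    obtain ⟨hs1, hs2⟩ := hφ x₀ hx₀
    set s := φ x₀ with hsdef
    set G : Finset ℕ := s.primeFactors.filter (fun p => (D : ℝ) ^ α ≤ p) with hG
    have hGcard : G.card ≤ w := by
      have h1 : ∏ p ∈ G, p ∣ s :=
        (Finset.prod_dvd_prod_of_subset _ _ _ (Finset.filter_subset _ _)).trans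
          (Nat.prod_primeFactors_dvd s)
      have h2 : ∏ p ∈ G, p ≤ s := Nat.le_of_dvd hs1 h1
      have h3 : ((D : ℝ) ^ α) ^ G.card ≤ ∏ p ∈ G, (p : ℝ) := by
        rw [← Finset.prod_const]
        refine Finset.prod_le_prod (fun i _ => Real.rpow_nonneg hD0.le _) fun p hp => ?_
        rw [hG, mem_filter] at hp
        exact hp.2
      have h4 : (∏ p ∈ G, (p : ℝ)) < D := by
        have : ((∏ p ∈ G, p : ℕ) : ℝ) < D := by exact_mod_cast lt_of_le_of_lt h2 hs2
        push_cast at this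
        exact this
      have h5 : (D : ℝ) ^ (α * G.card) < (D : ℝ) ^ (1 : ℝ) := by
        rw [Real.rpow_mul hD0.le, Real.rpow_natCast, Real.rpow_one]
        exact lt_of_le_of_lt h3 h4
      rw [Real.rpow_lt_rpow_left_iff hD1] at h5
      have h6 : (G.card : ℝ) ≤ 1 / α := by
        rw [le_div_iff₀ hα0]
        linarith
      exact_mod_cast h6.trans (Nat.le_ceil _)
    have h7 : (Tup.filter fun x => φ x = s).card ≤
        (Fintype.piFinset (fun _ : Fin t => G)).card := by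
      refine Finset.card_le_card_of_injOn (fun x => x.1) ?_ ?_
      · intro x hx
        rw [mem_coe, mem_filter] at hx
        obtain ⟨h1, h2, h3⟩ := hmemTup x hx.1
        rw [mem_coe, Fintype.mem_piFinset]
        intro i
        have h8 := hAp _ (hTmem x.1 h1 i)
        rw [hG, mem_filter, Nat.mem_primeFactors]
        refine ⟨⟨h8.1, ?_, by omega⟩, h8.2.1⟩
        rw [← hx.2]
        exact (Finset.dvd_prod_of_mem x.1 (mem_univ i)).trans (dvd_mul_right _ _)
      · rintro ⟨f, m⟩ hx ⟨f', m'⟩ hy hxy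
        rw [mem_coe, mem_filter] at hx hy
        simp only at hxy
        subst hxy
        have h1 := (hmemTup _ hx.1).1
        have h2 : (∏ i, f i) * m = (∏ i, f i) * m' := hx.2.trans hy.2.symm
        have h3 := Nat.eq_of_mul_eq_mul_left (hPpos f h1) h2
        rw [h3]
    refine h7.trans ?_
    rw [Fintype.card_piFinset, Finset.prod_const, Finset.card_univ, Fintype.card_fin]
    exact Nat.pow_le_pow_left hGcard t
  have hcard := Finset.card_le_mul_card_image Tup (w ^ t) hfib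
  refine ⟨Tup.image φ, ?_, ?_⟩
  · intro s hs'
    obtain ⟨x, hx, rfl⟩ := Finset.mem_image.1 hs'
    obtain ⟨h1, h2, h3⟩ := hmemTup x hx
    refine ⟨(hφ x hx).1, (hφ x hx).2.le, fun l hl hdvd => ?_⟩
    obtain ⟨hx2p, hx2l⟩ := hmemTup2 x hx
    have hDk : (D : ℝ) ^ k ≤ (D : ℝ) ^ κ := Real.rpow_le_rpow_of_exponent_le hD1.le hkκ
    rw [← hkκ']
    rcases (Nat.Prime.dvd_mul hl).1 hdvd with h | h
    · obtain ⟨i, -, hi⟩ := (Prime.dvd_finsetProd_iff hl.prime _).1 h
      have h4 := hAp _ (hTmem x.1 h1 i)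
      rw [Nat.prime_dvd_prime_iff_eq hl h4.1] at hi
      rw [hi]
      refine ⟨lt_of_lt_of_le ((Real.rpow_lt_rpow_left_iff hD1).2 hαk) h4.2.1,
        h4.2.2.trans (Real.rpow_le_rpow_of_exponent_le hD1.le hβk)⟩
    · rw [Nat.prime_dvd_prime_iff_eq hl hx2p] at h
      have h5 : (∏ i, x.1 i) * x.2 ≤ D - 1 := (Nat.mul_le_mul_left _ h3).trans (Nat.mul_div_le _ _)
      have h6 : (((∏ i, x.1 i : ℕ) : ℝ)) * x.2 ≤ D := by
        exact_mod_cast h5.trans (Nat.sub_le _ _)
      have h7 := hPlow x.1 h1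
      have h8 : (x.2 : ℝ) ≤ (D : ℝ) ^ k := by
        have h9 : (D : ℝ) ^ (1 - k) * x.2 ≤ (D : ℝ) ^ (1 - k) * (D : ℝ) ^ k := by
          rw [← Real.rpow_add hD0]
          have : 1 - k + k = 1 := by ring
          rw [this, Real.rpow_one]
          exact (mul_le_mul_of_nonneg_right h7 (Nat.cast_nonneg _)).trans h6
        exact le_of_mul_le_mul_left h9 (Real.rpow_pos_of_pos hD0 _)
      rw [h]
      exact ⟨hx2l, h8⟩
  · have h1 : (Tup.card : ℝ) ≤ (w : ℝ) ^ t * ((Tup.image φ).card : ℝ) := by exact_mod_cast hcard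
    have h2 : δ ^ t / (8 * (w : ℝ) ^ t) * D / Real.log D =
        ((D : ℝ) / (8 * Real.log D) * δ ^ t) / (w : ℝ) ^ t := by
      field_simp
    rw [h2, div_le_iff₀ (by positivity)]
    linarith [hTuplow, h1]

end Pool.Agent.H471R4.SP
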